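import Pool.Agent.H95.FG.Defs

open MvPolynomial

namespace H78.FG

open H95.FG

/-- maximal total degree is attained -/
theorem exists_maxdeg {n m : ℕ} (hm : 1 ≤ m) (p : Fin m → MvPolynomial (Fin n) ℂ) :
    ∃ N, (∀ j, (p j).totalDegree ≤ N) ∧ ∃ j, (p j).totalDegree = N := by
  haveI : Nonempty (Fin m) := ⟨⟨0, hm⟩⟩
  obtain ⟨j, -, hj⟩ := Finset.exists_max_image (Finset.univ : Finset (Fin m))
    (fun j => (p j).totalDegree) Finset.univ_nonempty
  exact ⟨(p j).totalDegree, fun i => hj i (Finset.mem_univ i), j, rfl⟩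

theorem t_MIN (h1 : S_R1) (h2 : S_TOP) (h3 : S_DIV) : S_MIN := by
  intro n m hn hm hmn hex
  have hlt : m < 2 * n := by omega
  haveI : Nonempty (Fin m) := ⟨⟨0, hm⟩⟩
  -- existence of homogeneous systems
  have key : ∀ (p : Fin m → MvPolynomial (Fin n) ℂ) (A : MvPolynomial (Fin n ⊕ Fin n) ℂ),
      Sys n m p A → ∀ N, (∀ j, (p j).totalDegree ≤ N) → (∃ j, (p j).totalDegree = N) →
      1 ≤ N ∧ ∃ p' A', Sys n m p' A' ∧ Hom p' N := by
    intro p A hS N ha hb
    exact h2 n m p A hm hS (h1 n m p A hS hlt) N ha hb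
  have hP : ∃ N, ∃ p A, Sys n m p A ∧ Hom p N := by
    obtain ⟨p, A, hS⟩ := hex
    obtain ⟨N, ha, hb⟩ := exists_maxdeg hm p
    obtain ⟨-, p', A', hS', hH'⟩ := key p A hS N ha hb
    exact ⟨N, p', A', hS', hH'⟩
  classical
  obtain ⟨p, A, hS, hH⟩ := Nat.find_spec hP
  have hne : ∀ j, p j ≠ 0 := fun j => hS.1.ne_zero j
  have htd : ∀ j, (p j).totalDegree = Nat.find hP := fun j => (hH j).totalDegree (hne j)
  have hN1 : 1 ≤ Nat.find hP :=
    (key p A hS (Nat.find hP) (fun j => (htd j).le) ⟨Classical.arbitrary _, htd _⟩).1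
  refine ⟨p, A, Nat.find hP, hS, hN1, hH, ?_⟩
  intro φ hφ
  choose h hh using hφ
  have hφ0 : φ ≠ 0 := by
    rintro rfl
    apply hne (Classical.arbitrary _)
    rw [hh, zero_mul]
  have hp : p = fun j => φ * h j := funext hh
  have hS2 : Sys n m (fun j => φ * h j) A := hp ▸ hS
  obtain ⟨B, hB⟩ := h3 n m h φ A hn hφ0 hS2
  obtain ⟨N, ha, j, hj⟩ := exists_maxdeg hm h
  obtain ⟨-, p', A', hS', hH'⟩ := key h B hB N ha ⟨j, hj⟩
  have hmin : Nat.find hP ≤ N := Nat.find_min' hP ⟨p', A', hS', hH'⟩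
  have hhj : h j ≠ 0 := hB.1.ne_zero j
  have hdeg : (p j).totalDegree = φ.totalDegree + (h j).totalDegree := by
    rw [hh j]
    exact totalDegree_mul_of_isDomain hφ0 hhj
  have h0 : φ.totalDegree = 0 := by
    have := htd j
    omega
  rw [totalDegree_eq_zero_iff_eq_C] at h0
  rw [h0]
  have hc : coeff 0 φ ≠ 0 := by
    intro hc
    apply hφ0
    rw [h0, hc, C_0]
  exact (IsUnit.mk0 _ hc).map C

end H78.FG
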