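import Pool.Agent.H95.FG.Defs

open MvPolynomial

namespace H78.FG

open H95.FG

/-- the nine quadratic forms -/
noncomputable def nf : Fin 9 → MvPolynomial (Fin 4) ℂ :=
  ![X 0 * X 0, X 1 * X 1, X 2 * X 2, C ((Real.sqrt 2 : ℝ) : ℂ) * (X 0 * X 1),
    C ((Real.sqrt 2 : ℝ) : ℂ) * (X 0 * X 2), C ((Real.sqrt 2 : ℝ) : ℂ) * (X 1 * X 2),
    X 0 * X 3, X 1 * X 3, X 2 * X 3]

theorem nf_li : LinearIndependent ℂ nf := by
  rw [Fintype.linearIndependent_iff]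
  intro g hg
  have h : ∀ z : Fin 4 → ℂ,
      g 0 * (z 0 * z 0) + g 1 * (z 1 * z 1) + g 2 * (z 2 * z 2)
        + g 3 * (((Real.sqrt 2 : ℝ) : ℂ) * (z 0 * z 1))
        + g 4 * (((Real.sqrt 2 : ℝ) : ℂ) * (z 0 * z 2))
        + g 5 * (((Real.sqrt 2 : ℝ) : ℂ) * (z 1 * z 2))
        + g 6 * (z 0 * z 3) + g 7 * (z 1 * z 3) + g 8 * (z 2 * z 3) = 0 := by
    intro z
    have h1 := congrArg (eval z) hg
    rw [map_sum, map_zero] at h1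
    rw [← h1]
    simp only [smul_eval]
    rw [Fin.sum_univ_succ, Fin.sum_univ_eight]
    simp [nf]
    try ring
  have hs : ((Real.sqrt 2 : ℝ) : ℂ) ≠ 0 := by
    simp
  have e0 := h ![1, 0, 0, 0]
  have e1 := h ![0, 1, 0, 0]
  have e2 := h ![0, 0, 1, 0]
  have e3 := h ![1, 1, 0, 0]
  have e4 := h ![1, 0, 1, 0]
  have e5 := h ![0, 1, 1, 0]
  have e6 := h ![1, 0, 0, 1]
  have e7 := h ![0, 1, 0, 1]
  have e8 := h ![0, 0, 1, 1]
  simp at e0 e1 e2 e3 e4 e5 e6 e7 e8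
  have k3 : g 3 = 0 := by
    rw [e0, e1] at e3; simpa using e3
  have k4 : g 4 = 0 := by
    rw [e0, e2] at e4; simpa using e4
  have k5 : g 5 = 0 := by
    rw [e1, e2] at e5; simpa using e5
  have k6 : g 6 = 0 := by
    rw [e0] at e6; simpa using e6
  have k7 : g 7 = 0 := by
    rw [e1] at e7; simpa using e7
  have k8 : g 8 = 0 := by
    rw [e2] at e8; simpa using e8
  intro i
  fin_cases i <;> simp <;> assumption

theorem t_NINE : S_NINE := by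
  refine ⟨nf, nf_li, ∑ i : Fin 3, X (Sum.inl (i.castSucc)) * X (Sum.inr (i.castSucc)), ?_⟩
  intro z
  have hs : (Real.sqrt 2) ^ 2 = 2 := Real.sq_sqrt (by norm_num)
  have hn : ∀ w : ℂ, ((‖w‖ : ℝ) : ℂ) ^ 2 = w * (starRingEnd ℂ) w := by
    intro w
    rw [Complex.mul_conj, Complex.normSq_eq_norm_sq]
    push_cast
    rfl
  have hL : ((∑ j, ‖eval z (nf j)‖ ^ 2 : ℝ)) =
      (‖z 0‖ ^ 2 + ‖z 1‖ ^ 2 + ‖z 2‖ ^ 2) *
        (‖z 0‖ ^ 2 + ‖z 1‖ ^ 2 + ‖z 2‖ ^ 2 + ‖z 3‖ ^ 2) := by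
    rw [Fin.sum_univ_succ, Fin.sum_univ_eight]
    simp [nf]
    have hsa : |Real.sqrt 2| ^ 2 = 2 := by rw [sq_abs, hs]
    ring_nf
    simp only [hsa]
  rw [hL]
  have hR : eval (Sum.elim z (fun k => (starRingEnd ℂ) (z k)))
      (∑ i : Fin 3, X (Sum.inl (i.castSucc)) * X (Sum.inr (i.castSucc)) :
        MvPolynomial (Fin 4 ⊕ Fin 4) ℂ) =
      ((‖z 0‖ ^ 2 + ‖z 1‖ ^ 2 + ‖z 2‖ ^ 2 : ℝ) : ℂ) := by
    rw [map_sum, Fin.sum_univ_three]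
    simp only [map_mul, eval_X, Sum.elim_inl, Sum.elim_inr]
    push_cast
    rw [hn, hn, hn]
  rw [hR, Fin.sum_univ_four]
  push_cast
  ring

end H78.FG
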